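import Pool.Agent.Y744.NB.Stm

/-!
The Laplacian of a radial function (job NB-RAD).
-/

set_option autoImplicit false

open MeasureTheory Set Filter Topology Metric
open scoped ContDiff

namespace Pool.Agent.Y681.NB.Rad

open Pool.Agent.Y744.NB InnerProductSpace

lemma lap_rad {N : ℕ} {f A : E N → ℝ} {x : E N} {A1 : ℝ}
    (hf : ∀ᶠ y in 𝓝 x, HasFDerivAt f (A y • innerSL ℝ y) y)
    (hA : HasFDerivAt A (A1 • innerSL ℝ x) x) :
    Laplacian.laplacian f x = A1 * ‖x‖ ^ 2 + N * A x := by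
  have h1 : fderiv ℝ f =ᶠ[𝓝 x] fun y => A y • innerSL ℝ y := by
    filter_upwards [hf] with y hy using hy.fderiv
  have h2 : HasFDerivAt (fun y : E N => (innerSL ℝ y : E N →L[ℝ] ℝ))
      (innerSL ℝ : E N →L[ℝ] E N →L[ℝ] ℝ) x :=
    (innerSL ℝ : E N →L[ℝ] E N →L[ℝ] ℝ).hasFDerivAt
  have h3 := hA.smul h2
  have h4 : ∀ v, fderiv ℝ (fderiv ℝ f) x v v =
      A1 * inner ℝ x v * inner ℝ x v + A x * inner ℝ v v := by
    intro v
    have h5 : fderiv ℝ (fderiv ℝ f) x = _ := h1.fderiv_eq.trans h3.fderiv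
    rw [h5]
    have h6 : ((innerSL ℝ : E N →L[ℝ] E N →L[ℝ] ℝ) v) v = inner ℝ v v := rfl
    simp only [ContinuousLinearMap.add_apply, ContinuousLinearMap.smul_apply,
      ContinuousLinearMap.smulRight_apply, innerSL_apply_apply, smul_eq_mul, h6]
    ring
  obtain ⟨bs, -⟩ : ∃ bs : OrthonormalBasis (Fin N) ℝ (E N), True :=
    ⟨EuclideanSpace.basisFun (Fin N) ℝ, trivial⟩
  rw [laplacian_eq_iteratedFDeriv_orthonormalBasis f bs]
  simp only [iteratedFDeriv_two_apply, Matrix.cons_val_zero, Matrix.cons_val_one]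
  simp only [h4]
  have hs1 : ∑ i, inner ℝ x (bs i) * inner ℝ x (bs i) = ‖x‖ ^ 2 := by
    have := bs.sum_inner_mul_inner x x
    rw [← real_inner_self_eq_norm_sq, ← this]
    apply Finset.sum_congr rfl
    intro i _
    rw [real_inner_comm x (bs i)]
  have hs2 : ∑ i : Fin N, inner ℝ (bs i) (bs i) = (N : ℝ) := by
    have : ∀ i, inner ℝ (bs i) (bs i) = (1 : ℝ) := by
      intro i
      rw [real_inner_self_eq_norm_sq, bs.norm_eq_one, one_pow]
    simp [this]
  rw [Finset.sum_add_distrib, ← Finset.mul_sum, hs2]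
  simp_rw [mul_assoc A1]
  rw [← Finset.mul_sum, hs1]
  ring

theorem t : S_RAD := by
  intro N h b hb hh
  have hopen : IsOpen (Ioi (-b)) := isOpen_Ioi
  have hmem : ∀ y : E N, ‖y‖ ^ 2 ∈ Ioi (-b) := by
    intro y
    have : 0 ≤ ‖y‖ ^ 2 := by positivity
    rw [mem_Ioi]
    linarith
  have hat : ∀ s ∈ Ioi (-b), ContDiffAt ℝ ∞ h s := fun s hs => hh.contDiffAt (hopen.mem_nhds hs)
  have hsq : ContDiff ℝ ∞ (fun y : E N => ‖y‖ ^ 2) := contDiff_norm_sq ℝ
  have hd : ∀ s ∈ Ioi (-b), HasDerivAt h (deriv h s) s := fun s hs =>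
    ((hat s hs).differentiableAt (by simp)).hasDerivAt
  have hd2 : ∀ s ∈ Ioi (-b), HasDerivAt (deriv h) (deriv (deriv h) s) s := by
    intro s hs
    have h1 : ContDiffOn ℝ 1 (deriv h) (Ioi (-b)) := hh.deriv_of_isOpen hopen (by norm_cast)
    exact ((h1.contDiffAt (hopen.mem_nhds hs)).differentiableAt (by simp)).hasDerivAt
  have hn : ∀ y : E N, HasFDerivAt (fun y : E N => ‖y‖ ^ 2) (2 • innerSL ℝ y) y := fun y =>
    (hasStrictFDerivAt_norm_sq y).hasFDerivAt
  refine ⟨?_, fun y => ?_⟩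
  · rw [contDiff_iff_contDiffAt]
    intro y
    exact (hat _ (hmem y)).comp y hsq.contDiffAt
  · have h1 := lap_rad (f := fun y : E N => h (‖y‖ ^ 2))
      (A := fun y : E N => 2 * deriv h (‖y‖ ^ 2)) (x := y)
      (A1 := 4 * deriv (deriv h) (‖y‖ ^ 2)) ?_ ?_
    · rw [h1]
      ring
    · refine Eventually.of_forall fun z => ?_
      refine ((hd _ (hmem z)).comp_hasFDerivAt z (hn z)).congr_fderiv ?_
      ext v
      simp only [ContinuousLinearMap.smul_apply, innerSL_apply_apply, smul_eq_mul, nsmul_eq_mul]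
      push_cast
      ring
    · refine (((hd2 _ (hmem y)).comp_hasFDerivAt y (hn y)).const_mul 2).congr_fderiv ?_
      ext v
      simp only [ContinuousLinearMap.smul_apply, innerSL_apply_apply, smul_eq_mul, nsmul_eq_mul]
      push_cast
      ring

end Pool.Agent.Y681.NB.Rad
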