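import Pool.Agent.Y744.NB.Stm

/-!
The integral of a Laplacian of a compactly supported function vanishes (job NB-LAP0).
-/

set_option autoImplicit false

open MeasureTheory Set Filter Topology Metric
open scoped ContDiff

namespace Pool.Agent.Y681.NB.Lap0

open Pool.Agent.Y744.NB InnerProductSpace

/-- The integral of a directional derivative vanishes. -/
lemma int_fderiv {N : ℕ} {g : E N → ℝ} (hg : ContDiff ℝ 1 g) (hc : HasCompactSupport g)
    (v : E N) : ∫ x, fderiv ℝ g x v = 0 := by
  have hd : Differentiable ℝ g := hg.differentiable (by simp)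
  have hcont : Continuous (fun x => fderiv ℝ g x v) :=
    (hg.continuous_fderiv (by simp)).clm_apply continuous_const
  have hcs : HasCompactSupport (fun x => fderiv ℝ g x v) := hc.fderiv_apply (𝕜 := ℝ) v
  have h := integral_mul_fderiv_eq_neg_fderiv_mul_of_integrable (μ := (volume : Measure (E N)))
    (f := fun _ : E N => (1 : ℝ)) (g := g) (v := v) ?_ ?_ ?_ ?_ ?_
  · simpa using h
  · simp
  · simpa using hcont.integrable_of_hasCompactSupport hcs
  · simpa using hg.continuous.integrable_of_hasCompactSupport hc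
  · exact fun x _ => differentiableAt_const (1 : ℝ)
  · exact fun x _ => hd x

theorem t : S_LAP0 := by
  intro N φ hφ hc
  obtain ⟨bs, -⟩ : ∃ bs : OrthonormalBasis (Fin N) ℝ (E N), True :=
    ⟨EuclideanSpace.basisFun (Fin N) ℝ, trivial⟩
  have hφ1 : ContDiff ℝ 1 (fderiv ℝ φ) := hφ.fderiv_right (by norm_cast)
  have hg : ∀ i, ContDiff ℝ 1 (fun x => fderiv ℝ φ x (bs i)) := fun i =>
    hφ1.clm_apply contDiff_const
  have hcg : ∀ i, HasCompactSupport (fun x => fderiv ℝ φ x (bs i)) := fun i =>
    hc.fderiv_apply (𝕜 := ℝ) (bs i)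
  have key : ∀ x, Laplacian.laplacian φ x =
      ∑ i, fderiv ℝ (fun x => fderiv ℝ φ x (bs i)) x (bs i) := by
    intro x
    rw [laplacian_eq_iteratedFDeriv_orthonormalBasis φ bs]
    refine Finset.sum_congr rfl fun i _ => ?_
    rw [iteratedFDeriv_two_apply]
    have h1 : HasFDerivAt (fderiv ℝ φ) (fderiv ℝ (fderiv ℝ φ) x) x :=
      (hφ1.differentiable (by simp) x).hasFDerivAt
    have h2 := (h1.clm_apply (hasFDerivAt_const (bs i) x)).fderiv
    rw [h2]
    simp
  simp_rw [key]
  rw [integral_finsetSum]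
  · exact Finset.sum_eq_zero fun i _ => int_fderiv (hg i) (hcg i) (bs i)
  · intro i _
    have hcont : Continuous (fun x => fderiv ℝ (fun x => fderiv ℝ φ x (bs i)) x (bs i)) :=
      ((hg i).continuous_fderiv (by simp)).clm_apply continuous_const
    exact hcont.integrable_of_hasCompactSupport ((hcg i).fderiv_apply (𝕜 := ℝ) (bs i))

end Pool.Agent.Y681.NB.Lap0
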